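import Pool.Agent.Helper27.CW.Spec

/-! Part Q12a of the CW project: point probabilities of the binomial distribution. -/

namespace Pool.Agent.Helper47.CW

open Helper27.CD Helper27.CW

theorem central_sq (m : ℕ) : (m.centralBinom) ^ 2 * (2 * m + 1) ≤ 16 ^ m := by
  induction m with
  | zero => simp
  | succ m ih =>
    have h := Nat.succ_mul_centralBinom_succ m
    have h2 : (m + 1) ^ 2 * ((m + 1).centralBinom ^ 2 * (2 * (m + 1) + 1)) ≤
        (m + 1) ^ 2 * 16 ^ (m + 1) := by
      calc (m + 1) ^ 2 * ((m + 1).centralBinom ^ 2 * (2 * (m + 1) + 1))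
          = ((m + 1) * (m + 1).centralBinom) ^ 2 * (2 * m + 3) := by ring
        _ = (m.centralBinom ^ 2 * (2 * m + 1)) * (4 * ((2 * m + 1) * (2 * m + 3))) := by
            rw [h]; ring
        _ ≤ 16 ^ m * (4 * (4 * (m + 1) ^ 2)) := by
            refine Nat.mul_le_mul ih (Nat.mul_le_mul_left _ ?_)
            ring_nf
            omega
        _ = (m + 1) ^ 2 * 16 ^ (m + 1) := by ring
    exact Nat.le_of_mul_le_mul_left h2 (by positivity)

theorem choose_half_sq (r : ℕ) : (r.choose (r / 2)) ^ 2 * (r + 1) ≤ 4 ^ r := by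
  rcases Nat.even_or_odd' r with ⟨m, hm | hm⟩
  · subst hm
    have h := central_sq m
    have e : 2 * m / 2 = m := by omega
    rw [e]
    have e2 : (2 * m).choose m = m.centralBinom := rfl
    rw [e2, pow_mul]
    norm_num
    exact h
  · subst hm
    have h := central_sq (m + 1)
    have e : (2 * m + 1) / 2 = m := by omega
    rw [e]
    have e2 : (m + 1).centralBinom = 2 * (2 * m + 1).choose m := by
      have h1 : (m + 1).centralBinom = (2 * m + 1 + 1).choose (m + 1) := by
        unfold Nat.centralBinom; congr 1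
      rw [h1, Nat.choose_succ_succ]
      have h2 : (2 * m + 1).choose (m + 1) = (2 * m + 1).choose m :=
        Nat.choose_symm_of_eq_add (by omega)
      rw [h2]; ring
    rw [e2] at h
    have e3 : (4 : ℕ) ^ (2 * m + 1) * 4 = 16 ^ (m + 1) := by
      rw [show (16 : ℕ) = 4 ^ 2 by norm_num, ← pow_mul, ← pow_succ]; congr 1
    have h4 : ((2 * m + 1).choose m) ^ 2 * (2 * m + 1 + 1) * 4 ≤ 4 ^ (2 * m + 1) * 4 := by
      rw [e3]
      refine le_trans ?_ h
      nlinarith [sq_nonneg ((2 * m + 1).choose m)]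
    exact Nat.le_of_mul_le_mul_right h4 (by norm_num)

theorem choose_div_le (r i : ℕ) : (r.choose i : ℝ) / 2 ^ r ≤ 1 / Real.sqrt (r + 1) := by
  have h1 : r.choose i ≤ r.choose (r / 2) := Nat.choose_le_middle i r
  have h2 := choose_half_sq r
  have h3 : ((r.choose i : ℕ) : ℝ) ^ 2 * ((r : ℝ) + 1) ≤ (2 ^ r) ^ 2 := by
    have h4 : (r.choose i) ^ 2 * (r + 1) ≤ 4 ^ r :=
      le_trans (Nat.mul_le_mul_right _ (Nat.pow_le_pow_left h1 2)) h2
    have h5 : (((r.choose i) ^ 2 * (r + 1) : ℕ) : ℝ) ≤ ((4 ^ r : ℕ) : ℝ) := by exact_mod_cast h4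
    push_cast at h5
    rw [← pow_mul, Nat.mul_comm r 2, pow_mul]
    norm_num
    exact h5
  have hs : 0 < Real.sqrt ((r : ℝ) + 1) := Real.sqrt_pos.2 (by positivity)
  rw [div_le_div_iff₀ (by positivity) hs, one_mul]
  refine le_of_sq_le_sq ?_ (by positivity)
  rw [mul_pow, Real.sq_sqrt (by positivity)]
  exact h3

theorem inv_sqrt_le (s t : ℝ) (hs : 0 < s) (ht : 0 < t) :
    1 / Real.sqrt t ≤ (1 / s + s / t) / 2 := by
  have h0 : 0 < Real.sqrt t := Real.sqrt_pos.2 ht
  have h1 : Real.sqrt t * Real.sqrt t = t := Real.mul_self_sqrt ht.le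
  set u := Real.sqrt t with hu
  rw [← h1]
  have : (1 / s + s / (u * u)) / 2 - 1 / u = (u - s) ^ 2 / (2 * s * (u * u)) := by
    field_simp
    ring
  have h2 : 0 ≤ (u - s) ^ 2 / (2 * s * (u * u)) := by positivity
  linarith

/-- mixture formula -/
theorem mixture (k i : ℕ) (θ : ℝ) :
    (k.choose i : ℝ) * (θ / 2) ^ i * (1 - θ / 2) ^ (k - i) =
      ∑ r ∈ Finset.range (k + 1),
        ((k.choose r : ℝ) * θ ^ r * (1 - θ) ^ (k - r)) * ((r.choose i : ℝ) / 2 ^ r) := by
  have h : (Polynomial.C (1 - θ / 2) + Polynomial.C (θ / 2) * Polynomial.X) ^ k =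
      ∑ r ∈ Finset.range (k + 1), Polynomial.C ((k.choose r : ℝ) * θ ^ r * (1 - θ) ^ (k - r)) *
        (Polynomial.C ((1 : ℝ) / 2 ^ r) * (1 + Polynomial.X) ^ r) := by
    have e : Polynomial.C (1 - θ / 2) + Polynomial.C (θ / 2) * Polynomial.X =
        Polynomial.C (θ / 2) * (1 + Polynomial.X) + Polynomial.C (1 - θ) := by
      rw [mul_add, mul_one]
      have : (1 - θ / 2) = θ / 2 + (1 - θ) := by ring
      rw [this, Polynomial.C_add]
      ring
    rw [e, add_pow]
    refine Finset.sum_congr rfl fun r _ => ?_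
    have e2 : ((k.choose r : ℝ) * θ ^ r * (1 - θ) ^ (k - r)) * ((1 : ℝ) / 2 ^ r) =
        (θ / 2) ^ r * (1 - θ) ^ (k - r) * (k.choose r : ℝ) := by
      rw [div_pow]; ring
    rw [← mul_assoc, ← Polynomial.C_mul, e2, Polynomial.C_mul, Polynomial.C_mul, Polynomial.C_pow,
      Polynomial.C_pow, mul_pow, Polynomial.C_eq_natCast]
    ring
  have h2 := congrArg (fun q : Polynomial ℝ => q.coeff i) h
  simp only [Polynomial.finsetSum_coeff, Polynomial.coeff_C_mul, Polynomial.coeff_one_add_X_pow]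
    at h2
  have h3 : ((Polynomial.C (1 - θ / 2) + Polynomial.C (θ / 2) * Polynomial.X) ^ k).coeff i =
      (k.choose i : ℝ) * (θ / 2) ^ i * (1 - θ / 2) ^ (k - i) := by
    rw [add_comm, add_pow]
    simp only [Polynomial.finsetSum_coeff]
    have e : ∀ r, ((Polynomial.C (θ / 2) * Polynomial.X) ^ r * Polynomial.C (1 - θ / 2) ^ (k - r) *
        ((k.choose r : ℕ) : Polynomial ℝ)).coeff i =
        if r = i then (k.choose i : ℝ) * (θ / 2) ^ i * (1 - θ / 2) ^ (k - i) else 0 := by
      intro r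
      have e1 : (Polynomial.C (θ / 2) * Polynomial.X) ^ r * Polynomial.C (1 - θ / 2) ^ (k - r) *
        ((k.choose r : ℕ) : Polynomial ℝ) =
        Polynomial.C ((k.choose r : ℝ) * (θ / 2) ^ r * (1 - θ / 2) ^ (k - r)) *
          Polynomial.X ^ r := by
        rw [Polynomial.C_mul, Polynomial.C_mul, Polynomial.C_pow, Polynomial.C_pow,
          Polynomial.C_eq_natCast, mul_pow]
        ring
      rw [e1, Polynomial.coeff_C_mul, Polynomial.coeff_X_pow]
      by_cases hri : r = i
      · subst hri; simp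
      · rw [if_neg (fun h => hri h.symm), if_neg hri, mul_zero]
    rw [Finset.sum_congr rfl (fun r _ => e r), Finset.sum_ite_eq']
    split_ifs with hi
    · rfl
    · rw [Finset.mem_range, not_lt] at hi
      rw [Nat.choose_eq_zero_of_lt (by omega)]
      simp
  rw [h3] at h2
  rw [h2]
  refine Finset.sum_congr rfl fun r _ => ?_
  ring

theorem mean_inv (k : ℕ) (θ : ℝ) (h0 : 0 < θ) (h1 : θ ≤ 1) :
    ∑ r ∈ Finset.range (k + 1),
        ((k.choose r : ℝ) * θ ^ r * (1 - θ) ^ (k - r)) / ((r : ℝ) + 1) ≤ 1 / (((k : ℝ) + 1) * θ) := by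
  have hk : (0 : ℝ) < ((k : ℝ) + 1) * θ := by positivity
  rw [le_div_iff₀ hk, Finset.sum_mul]
  have h : ∀ r ∈ Finset.range (k + 1),
      ((k.choose r : ℝ) * θ ^ r * (1 - θ) ^ (k - r)) / ((r : ℝ) + 1) * (((k : ℝ) + 1) * θ) =
        θ ^ (r + 1) * (1 - θ) ^ (k + 1 - (r + 1)) * ((k + 1).choose (r + 1) : ℝ) := by
    intro r _
    have e := Nat.add_one_mul_choose_eq k r
    have e2 : ((k : ℝ) + 1) * (k.choose r : ℝ) =
        ((k + 1).choose (r + 1) : ℝ) * ((r : ℝ) + 1) := by exact_mod_cast e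
    have e3 : k + 1 - (r + 1) = k - r := by omega
    rw [e3, div_mul_eq_mul_div, div_eq_iff (by positivity)]
    linear_combination (θ ^ r * (1 - θ) ^ (k - r) * θ) * e2
  rw [Finset.sum_congr rfl h]
  have h2 : ∑ r ∈ Finset.range (k + 1 + 1),
      θ ^ r * (1 - θ) ^ (k + 1 - r) * ((k + 1).choose r : ℝ) = 1 := by
    rw [← add_pow]; simp
  rw [Finset.sum_range_succ'] at h2
  have h3 : 0 ≤ θ ^ 0 * (1 - θ) ^ (k + 1 - 0) * ((k + 1).choose 0 : ℝ) := by
    have : 0 ≤ 1 - θ := by linarith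
    positivity
  linarith

theorem bp_aux (k i : ℕ) (θ : ℝ) (h0 : 1 / 2 ≤ θ) (h1 : θ ≤ 1) :
    (k.choose i : ℝ) * (θ / 2) ^ i * (1 - θ / 2) ^ (k - i) ≤ 2 / Real.sqrt (k + 1) := by
  rw [mixture]
  set s := Real.sqrt ((k : ℝ) + 1) with hs
  have hs0 : 0 < s := Real.sqrt_pos.2 (by positivity)
  have hss : s * s = (k : ℝ) + 1 := Real.mul_self_sqrt (by positivity)
  have hw : ∀ r, 0 ≤ (k.choose r : ℝ) * θ ^ r * (1 - θ) ^ (k - r) := by
    intro r
    have : 0 ≤ 1 - θ := by linarith
    positivity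
  have hsum : ∑ r ∈ Finset.range (k + 1), (k.choose r : ℝ) * θ ^ r * (1 - θ) ^ (k - r) = 1 := by
    have : ∑ r ∈ Finset.range (k + 1), θ ^ r * (1 - θ) ^ (k - r) * (k.choose r : ℝ) = 1 := by
      rw [← add_pow]; simp
    exact Eq.trans (Finset.sum_congr rfl fun r _ => by ring) this
  calc ∑ r ∈ Finset.range (k + 1),
        ((k.choose r : ℝ) * θ ^ r * (1 - θ) ^ (k - r)) * ((r.choose i : ℝ) / 2 ^ r)
      ≤ ∑ r ∈ Finset.range (k + 1),
        ((k.choose r : ℝ) * θ ^ r * (1 - θ) ^ (k - r)) * ((1 / s + s / ((r : ℝ) + 1)) / 2) := by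
        refine Finset.sum_le_sum fun r _ => mul_le_mul_of_nonneg_left ?_ (hw r)
        exact (choose_div_le r i).trans (inv_sqrt_le s _ hs0 (by positivity))
    _ = (1 / s) / 2 * (∑ r ∈ Finset.range (k + 1),
          (k.choose r : ℝ) * θ ^ r * (1 - θ) ^ (k - r)) +
        s / 2 * ∑ r ∈ Finset.range (k + 1),
          ((k.choose r : ℝ) * θ ^ r * (1 - θ) ^ (k - r)) / ((r : ℝ) + 1) := by
        rw [Finset.mul_sum, Finset.mul_sum, ← Finset.sum_add_distrib]
        refine Finset.sum_congr rfl fun r _ => ?_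
        ring
    _ ≤ (1 / s) / 2 * 1 + s / 2 * (1 / (((k : ℝ) + 1) * θ)) := by
        rw [hsum]
        have := mean_inv k θ (by linarith) h1
        have := mul_le_mul_of_nonneg_left this (show 0 ≤ s / 2 by positivity)
        linarith
    _ ≤ (1 / s) / 2 * 1 + s / 2 * (2 / (s * s)) := by
        rw [hss]
        have : 1 / (((k : ℝ) + 1) * θ) ≤ 2 / ((k : ℝ) + 1) := by
          rw [div_le_div_iff₀ (by positivity) (by positivity)]
          have : (0 : ℝ) ≤ k := by positivity
          nlinarith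
        have := mul_le_mul_of_nonneg_left this (show 0 ≤ s / 2 by positivity)
        linarith
    _ = (3 / 2) / s := by field_simp; ring
    _ ≤ 2 / s := by
        rw [div_le_div_iff_of_pos_right hs0]; norm_num

theorem bp_le : S_bp := by
  intro p k j hp hp1
  rcases le_total p (1 / 2) with h | h
  · have := bp_aux k j (2 * p) (by linarith) (by linarith)
    rw [show 2 * p / 2 = p by ring] at this
    exact this
  · unfold bp
    rcases le_or_gt j k with hjk | hjk
    · have := bp_aux k (k - j) (2 * (1 - p)) (by linarith) (by linarith)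
      rw [show 2 * (1 - p) / 2 = 1 - p by ring, Nat.choose_symm hjk,
        show k - (k - j) = j by omega] at this
      rw [show 1 - (1 - p) = p by ring] at this
      calc (k.choose j : ℝ) * p ^ j * (1 - p) ^ (k - j)
          = (k.choose j : ℝ) * (1 - p) ^ (k - j) * p ^ j := by ring
        _ ≤ _ := this
    · rw [Nat.choose_eq_zero_of_lt hjk]
      have : 0 < Real.sqrt ((k : ℝ) + 1) := Real.sqrt_pos.2 (by positivity)
      simp only [Nat.cast_zero, zero_mul]
      positivity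

end Pool.Agent.Helper47.CW
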