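import Pool.Agent.Helper27.CW.Spec

/-! Part Q12b of the CW project: the mode of the binomial distribution. -/

namespace Pool.Agent.Helper47.CW

open Helper27.CD Helper27.CW

theorem bp_nonneg (p : ℝ) (n k : ℕ) (hp0 : 0 ≤ p) (hp1 : p ≤ 1) : 0 ≤ bp p n k := by
  unfold bp
  have : 0 ≤ 1 - p := by linarith
  positivity

theorem bp_step (p : ℝ) (n k : ℕ) (hk : k < n) :
    bp p n (k + 1) * (((k : ℝ) + 1) * (1 - p)) = bp p n k * (((n : ℝ) - k) * p) := by
  have h1 := Nat.choose_succ_right_eq n k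
  have h2 : (n.choose (k + 1) : ℝ) * ((k : ℝ) + 1) = (n.choose k : ℝ) * ((n : ℝ) - k) := by
    have : ((n.choose (k + 1) * (k + 1) : ℕ) : ℝ) = ((n.choose k * (n - k) : ℕ) : ℝ) := by
      rw [h1]
    rw [Nat.cast_mul, Nat.cast_mul, Nat.cast_sub hk.le] at this
    push_cast at this
    exact this
  obtain ⟨j, hj⟩ : ∃ j, n - k = j + 1 := ⟨n - k - 1, by omega⟩
  have hj' : n - (k + 1) = j := by omega
  unfold bp
  rw [hj, hj', pow_succ, pow_succ]
  linear_combination (p ^ k * p * (1 - p) ^ j * (1 - p)) * h2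

theorem bp_sum (p : ℝ) (n : ℕ) : ∑ k ∈ Finset.range (n + 1), bp p n k = 1 := by
  have h := congrArg (Polynomial.eval p) (bernsteinPolynomial.sum ℝ n)
  rw [Polynomial.eval_finsetSum] at h
  simpa [bernsteinPolynomial, bp] using h

theorem bp_variance (p : ℝ) (n : ℕ) :
    ∑ k ∈ Finset.range (n + 1), ((n : ℝ) * p - k) ^ 2 * bp p n k = n * p * (1 - p) := by
  have h := congrArg (Polynomial.eval p) (bernsteinPolynomial.variance ℝ n)
  rw [Polynomial.eval_finsetSum] at h
  simpa [bernsteinPolynomial, bp, nsmul_eq_mul] using h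

/-- the largest binomial probability -/
theorem bp_max (n δ : ℕ) (hδ : 0 < δ) (hδn : δ < n) (k : ℕ) :
    bp ((δ : ℝ) / n) n k ≤ bp ((δ : ℝ) / n) n δ := by
  set p : ℝ := (δ : ℝ) / n with hp
  have hn0 : (0 : ℝ) < n := by
    have : 0 < n := by omega
    exact_mod_cast this
  have hδ0 : (0 : ℝ) < δ := by exact_mod_cast hδ
  have hδn' : (δ : ℝ) < n := by exact_mod_cast hδn
  have hp0 : 0 < p := div_pos hδ0 hn0
  have hp1 : p < 1 := (div_lt_one hn0).2 hδn'
  have hnp : (n : ℝ) * p = δ := by rw [hp]; field_simp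
  have hb0 : ∀ k, 0 ≤ bp p n k := fun k => bp_nonneg p n k hp0.le hp1.le
  have e : (δ : ℝ) * (1 - p) = ((n : ℝ) - δ) * p := by
    have : (δ : ℝ) * (1 - p) = δ - δ * p := by ring
    rw [this, sub_mul, hnp]
  have hup : ∀ k, k < δ → bp p n k ≤ bp p n (k + 1) := by
    intro k hk
    have h := bp_step p n k (by omega)
    have hk1 : (k : ℝ) + 1 ≤ δ := by
      have : k + 1 ≤ δ := by omega
      exact_mod_cast this
    have hpos : 0 < ((k : ℝ) + 1) * (1 - p) := mul_pos (by positivity) (by linarith)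
    have hle : ((k : ℝ) + 1) * (1 - p) ≤ ((n : ℝ) - k) * p := by
      calc ((k : ℝ) + 1) * (1 - p) ≤ (δ : ℝ) * (1 - p) :=
            mul_le_mul_of_nonneg_right hk1 (by linarith)
        _ = ((n : ℝ) - δ) * p := e
        _ ≤ ((n : ℝ) - k) * p := mul_le_mul_of_nonneg_right (by linarith) hp0.le
    have h3 : bp p n k * (((k : ℝ) + 1) * (1 - p)) ≤
        bp p n (k + 1) * (((k : ℝ) + 1) * (1 - p)) := by
      rw [h]; exact mul_le_mul_of_nonneg_left hle (hb0 k)
    exact le_of_mul_le_mul_right h3 hpos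
  have hdown : ∀ k, δ ≤ k → bp p n (k + 1) ≤ bp p n k := by
    intro k hk
    by_cases hkn : k < n
    · have h := bp_step p n k hkn
      have hk1 : (δ : ℝ) ≤ k := by exact_mod_cast hk
      have hkn' : (k : ℝ) < n := by exact_mod_cast hkn
      have hpos : 0 < ((k : ℝ) + 1) * (1 - p) := mul_pos (by positivity) (by linarith)
      have hle : ((n : ℝ) - k) * p ≤ ((k : ℝ) + 1) * (1 - p) := by
        calc ((n : ℝ) - k) * p ≤ ((n : ℝ) - δ) * p :=
              mul_le_mul_of_nonneg_right (by linarith) hp0.le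
          _ = (δ : ℝ) * (1 - p) := e.symm
          _ ≤ ((k : ℝ) + 1) * (1 - p) := mul_le_mul_of_nonneg_right (by linarith) (by linarith)
      have h3 : bp p n (k + 1) * (((k : ℝ) + 1) * (1 - p)) ≤
          bp p n k * (((k : ℝ) + 1) * (1 - p)) := by
        rw [h]; exact mul_le_mul_of_nonneg_left hle (hb0 k)
      exact le_of_mul_le_mul_right h3 hpos
    · have : bp p n (k + 1) = 0 := by
        unfold bp
        rw [Nat.choose_eq_zero_of_lt (by omega)]
        simp
      rw [this]; exact hb0 k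
  rcases le_total k δ with hk | hk
  · induction hk using Nat.decreasingInduction with
    | self => exact le_rfl
    | of_succ j hj ih => exact (hup j (by omega)).trans ih
  · induction k, hk using Nat.le_induction with
    | base => exact le_rfl
    | succ j hj ih => exact (hdown j hj).trans ih

theorem mode2 : S_mode2 := by
  intro n δ hδ hδn
  have hmax := bp_max n δ hδ hδn
  have hsum := bp_sum ((δ : ℝ) / n) n
  have hvar := bp_variance ((δ : ℝ) / n) n
  set p : ℝ := (δ : ℝ) / n with hp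
  have hn0 : (0 : ℝ) < n := by
    have : 0 < n := by omega
    exact_mod_cast this
  have hδ0 : (0 : ℝ) < δ := by exact_mod_cast hδ
  have hδn' : (δ : ℝ) < n := by exact_mod_cast hδn
  have hp0 : 0 < p := div_pos hδ0 hn0
  have hp1 : p < 1 := (div_lt_one hn0).2 hδn'
  have hnp : (n : ℝ) * p = δ := by rw [hp]; field_simp
  have hb0 : ∀ k, 0 ≤ bp p n k := fun k => bp_nonneg p n k hp0.le hp1.le
  rw [hnp] at hvar
  set s := Nat.sqrt n with hs
  have hs1 : 1 ≤ s := by
    rw [hs]; exact Nat.sqrt_pos.2 (by omega)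
  have hsn : (s : ℝ) ≤ Real.sqrt n := by
    rw [hs]; exact Real.nat_sqrt_le_real_sqrt
  have hcard : ((Finset.range (n + 1)).filter (fun k : ℕ => ((δ : ℝ) - k) ^ 2 < n)).card ≤
      3 * s := by
    calc ((Finset.range (n + 1)).filter (fun k : ℕ => ((δ : ℝ) - k) ^ 2 < n)).card
        ≤ (Finset.Icc (δ - s) (δ + s)).card := by
          refine Finset.card_le_card fun k hk => ?_
          rw [Finset.mem_filter] at hk
          have h1 : ((δ : ℤ) - k) ^ 2 < n := by exact_mod_cast hk.2
          have h2 : (n : ℤ) < (s + 1) * (s + 1) := by exact_mod_cast Nat.lt_succ_sqrt n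
          have h3 : |(δ : ℤ) - k| < s + 1 := by
            refine abs_lt_of_sq_lt_sq ?_ (by positivity)
            rw [sq ((s : ℤ) + 1)]
            exact h1.trans h2
          rw [abs_lt] at h3
          rw [Finset.mem_Icc]
          omega
      _ ≤ 2 * s + 1 := by rw [Nat.card_Icc]; omega
      _ ≤ 3 * s := by omega
  have hsplit : (1 : ℝ) ≤ 3 * s * bp p n δ + δ * (1 - p) / n := by
    refine hsum.ge.trans ?_
    have h1 : ∑ k ∈ Finset.range (n + 1), bp p n k ≤
        ∑ k ∈ Finset.range (n + 1), ((if ((δ : ℝ) - k) ^ 2 < n then bp p n δ else 0) +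
          ((δ : ℝ) - k) ^ 2 * bp p n k / n) := by
      refine Finset.sum_le_sum fun k _ => ?_
      split_ifs with hk
      · have := hmax k
        have h2 : 0 ≤ ((δ : ℝ) - k) ^ 2 * bp p n k / n :=
          div_nonneg (mul_nonneg (by positivity) (hb0 k)) hn0.le
        linarith
      · rw [zero_add, le_div_iff₀ hn0, mul_comm]
        push Not at hk
        exact mul_le_mul_of_nonneg_right hk (hb0 k)
    refine h1.trans ?_
    rw [Finset.sum_add_distrib, ← Finset.sum_div, hvar]
    have h3 : ∑ k ∈ Finset.range (n + 1), (if ((δ : ℝ) - k) ^ 2 < n then bp p n δ else 0) ≤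
        3 * s * bp p n δ := by
      rw [← Finset.sum_filter, Finset.sum_const, nsmul_eq_mul]
      refine mul_le_mul_of_nonneg_right ?_ (hb0 δ)
      exact_mod_cast hcard
    linarith
  have h4 : (δ : ℝ) * (1 - p) / n ≤ 1 / 4 := by
    have : (δ : ℝ) * (1 - p) / n = p * (1 - p) := by
      rw [hp]; ring
    rw [this]
    nlinarith [sq_nonneg (p - 1 / 2)]
  have h5 : 3 / 4 ≤ 3 * s * bp p n δ := by linarith
  have hr0 : 0 < Real.sqrt n := Real.sqrt_pos.2 hn0
  have h6 : 3 / 4 ≤ 3 * Real.sqrt n * bp p n δ := by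
    refine h5.trans ?_
    exact mul_le_mul_of_nonneg_right (by linarith) (hb0 δ)
  rw [div_le_iff₀ (by positivity)]
  have h7 : 0 ≤ Real.sqrt n * bp p n δ := mul_nonneg hr0.le (hb0 δ)
  nlinarith

end Pool.Agent.Helper47.CW
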