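import Pool.Agent.Helper27.CW.Spec

/-! Parts Q7, Q10 of the CW project. -/

namespace Pool.Agent.Helper47.CW

open Helper27.CD Helper27.CW

theorem binom_aux (a b : ℕ) (hab : 0 < a + b) : ∀ m d e D E : ℕ, d + e = m → D + d = a →
    E + e = b → ((D + E).choose D : ℝ) * ((D : ℝ) * E) ≤
      ((a + b).choose a : ℝ) * (((a : ℝ) / (a + b)) ^ d * ((b : ℝ) / (a + b)) ^ e) *
        ((a : ℝ) * b) := by
  have hn0 : (0 : ℝ) < (a : ℝ) + b := by exact_mod_cast hab
  intro m
  induction m with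
  | zero =>
    intro d e D E hm hD hE
    have h1 : d = 0 := by omega
    have h2 : e = 0 := by omega
    subst h1 h2
    simp only [add_zero] at hD hE
    subst hD hE
    simp
  | succ m ih =>
    intro d e D E hm hD hE
    set n : ℝ := (a : ℝ) + b with hn
    have haD : (a : ℝ) = D + d := by rw [← hD]; push_cast; ring
    have hbE : (b : ℝ) = E + e := by rw [← hE]; push_cast; ring
    have hcase : (∃ d', d = d' + 1 ∧ (a : ℝ) * (d' + e) ≤ (d' + 1) * n) ∨
        (∃ e', e = e' + 1 ∧ (b : ℝ) * (d + e') ≤ (e' + 1) * n) := by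
      have ha0 : (0 : ℝ) ≤ a := by positivity
      have hb0 : (0 : ℝ) ≤ b := by positivity
      rcases Nat.eq_zero_or_pos d with hd | hd
      · right
        refine ⟨e - 1, by omega, ?_⟩
        have he1 : ((e - 1 : ℕ) : ℝ) = m := by
          have : e - 1 = m := by omega
          rw [this]
        rw [he1, hd, hn]
        have hm0 : (0 : ℝ) ≤ m := by positivity
        have : (0 : ℝ) ≤ (m : ℝ) * a := by positivity
        push_cast
        nlinarith
      · rcases Nat.eq_zero_or_pos e with he | he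
        · left
          refine ⟨d - 1, by omega, ?_⟩
          have he1 : ((d - 1 : ℕ) : ℝ) = m := by
            have : d - 1 = m := by omega
            rw [this]
          rw [he1, he, hn]
          have hm0 : (0 : ℝ) ≤ m := by positivity
          have : (0 : ℝ) ≤ (m : ℝ) * b := by positivity
          push_cast
          nlinarith
        · obtain ⟨d', hd'⟩ : ∃ d', d = d' + 1 := ⟨d - 1, by omega⟩
          obtain ⟨e', he'⟩ : ∃ e', e = e' + 1 := ⟨e - 1, by omega⟩
          by_cases hc : (a : ℝ) * (d' + e) ≤ (d' + 1) * n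
          · exact Or.inl ⟨d', hd', hc⟩
          · refine Or.inr ⟨e', he', ?_⟩
            push Not at hc
            subst hd' he'
            rw [hn] at hc ⊢
            push_cast at hc ⊢
            nlinarith
    rcases hcase with ⟨d', hd', hc⟩ | ⟨e', he', hc⟩
    · subst hd'
      have h := ih d' e (D + 1) E (by omega) (by omega) hE
      have h1 := Nat.add_one_mul_choose_eq (D + E) D
      have e1 : D + 1 + E = D + E + 1 := by ring
      rw [e1] at h
      have h2 : ((D : ℝ) + E + 1) * ((D + E).choose D : ℝ) =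
          ((D + E + 1).choose (D + 1) : ℝ) * ((D : ℝ) + 1) := by exact_mod_cast h1
      have hN : (0 : ℝ) < (D : ℝ) + E + 1 := by positivity
      have h3 : ((D + E).choose D : ℝ) * ((D : ℝ) * E) =
          (((D + E + 1).choose (D + 1) : ℝ) * (((D + 1 : ℕ) : ℝ) * E)) *
            ((D : ℝ) / ((D : ℝ) + E + 1)) := by
        rw [mul_div_assoc', eq_div_iff hN.ne']
        push_cast
        linear_combination ((D : ℝ) * E) * h2
      have h4 : (D : ℝ) / ((D : ℝ) + E + 1) ≤ (a : ℝ) / n := by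
        rw [div_le_div_iff₀ hN hn0]
        have e2 : (D : ℝ) = a - (d' + 1) := by rw [haD]; push_cast; ring
        have e3 : (D : ℝ) + E + 1 = n - (d' + e) := by rw [hn, haD, hbE]; push_cast; ring
        rw [e3, e2]
        nlinarith
      rw [h3]
      calc (((D + E + 1).choose (D + 1) : ℝ) * (((D + 1 : ℕ) : ℝ) * E)) *
            ((D : ℝ) / ((D : ℝ) + E + 1))
          ≤ (((a + b).choose a : ℝ) * (((a : ℝ) / n) ^ d' * ((b : ℝ) / n) ^ e) *
            ((a : ℝ) * b)) * ((a : ℝ) / n) :=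
            mul_le_mul h h4 (by positivity) (by positivity)
        _ = _ := by rw [pow_succ]; ring
    · subst he'
      have h := ih d e' D (E + 1) (by omega) hD (by omega)
      have h1 := Nat.add_one_mul_choose_eq (E + D) E
      have e1 : D + (E + 1) = E + D + 1 := by ring
      have e0 : (D + (E + 1)).choose D = (E + D + 1).choose (E + 1) := by
        rw [e1]
        exact Nat.choose_symm_of_eq_add (by omega)
      rw [e0] at h
      have e00 : (D + E).choose D = (E + D).choose E := by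
        rw [Nat.add_comm D E]
        exact Nat.choose_symm_of_eq_add (by omega)
      rw [e00]
      have h2 : ((E : ℝ) + D + 1) * ((E + D).choose E : ℝ) =
          ((E + D + 1).choose (E + 1) : ℝ) * ((E : ℝ) + 1) := by exact_mod_cast h1
      have hN : (0 : ℝ) < (E : ℝ) + D + 1 := by positivity
      have h3 : ((E + D).choose E : ℝ) * ((D : ℝ) * E) =
          (((E + D + 1).choose (E + 1) : ℝ) * ((D : ℝ) * ((E + 1 : ℕ) : ℝ))) *
            ((E : ℝ) / ((E : ℝ) + D + 1)) := by
        rw [mul_div_assoc', eq_div_iff hN.ne']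
        push_cast
        linear_combination ((D : ℝ) * E) * h2
      have h4 : (E : ℝ) / ((E : ℝ) + D + 1) ≤ (b : ℝ) / n := by
        rw [div_le_div_iff₀ hN hn0]
        have e2 : (E : ℝ) = b - (e' + 1) := by rw [hbE]; push_cast; ring
        have e3 : (E : ℝ) + D + 1 = n - (d + e') := by rw [hn, haD, hbE]; push_cast; ring
        rw [e3, e2]
        nlinarith
      rw [h3]
      calc (((E + D + 1).choose (E + 1) : ℝ) * ((D : ℝ) * ((E + 1 : ℕ) : ℝ))) *
            ((E : ℝ) / ((E : ℝ) + D + 1))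
          ≤ (((a + b).choose a : ℝ) * (((a : ℝ) / n) ^ d * ((b : ℝ) / n) ^ e') *
            ((a : ℝ) * b)) * ((b : ℝ) / n) :=
            mul_le_mul h h4 (by positivity) (by positivity)
        _ = _ := by rw [pow_succ]; ring

theorem binom2 : S_binom2 := by
  intro n m δ d hdm hmδ hmn
  obtain ⟨e, he⟩ : ∃ e, m = d + e := ⟨m - d, by omega⟩
  obtain ⟨b, hb⟩ : ∃ b, n = δ + b := ⟨n - δ, by omega⟩
  obtain ⟨D, hD⟩ : ∃ D, D + d = δ := ⟨δ - d, by omega⟩
  obtain ⟨E, hE⟩ : ∃ E, E + e = b := ⟨b - e, by omega⟩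
  have h := binom_aux δ b (by omega) m d e D E (by omega) hD hE
  have e1 : n - m = D + E := by omega
  have e2 : δ - d = D := by omega
  have e3 : m - d = e := by omega
  rw [e1, e2, e3]
  have hδ0 : (0 : ℝ) < δ := by
    have : 0 < δ := by omega
    exact_mod_cast this
  have hb0 : (0 : ℝ) < b := by
    have : 0 < b := by omega
    exact_mod_cast this
  have hn0 : (0 : ℝ) < (δ : ℝ) + b := by positivity
  have hnn : (n : ℝ) = δ + b := by rw [hb]; push_cast; ring
  have hnb : (n : ℝ) - δ = b := by rw [hnn]; ring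
  rw [hnb]
  have hDr : (D : ℝ) = δ - d := by rw [← hD]; push_cast; ring
  have hEr : (E : ℝ) = b - e := by rw [← hE]; push_cast; ring
  have hmr : (m : ℝ) = d + e := by rw [he]; push_cast; ring
  have hd0 : (0 : ℝ) ≤ d := by positivity
  have he0 : (0 : ℝ) ≤ e := by positivity
  have hmδ' : (m : ℝ) < δ := by exact_mod_cast hmδ
  have hmb' : (m : ℝ) < b := by
    have : m < b := by omega
    exact_mod_cast this
  have f1 : 1 - (m : ℝ) / δ ≤ D / δ := by
    rw [le_div_iff₀ hδ0, sub_mul, div_mul_cancel₀ _ hδ0.ne', hDr, hmr]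
    linarith
  have f2 : 1 - (m : ℝ) / b ≤ E / b := by
    rw [le_div_iff₀ hb0, sub_mul, div_mul_cancel₀ _ hb0.ne', hEr, hmr]
    linarith
  have f3 : 0 ≤ 1 - (m : ℝ) / b := by
    rw [sub_nonneg, div_le_one hb0]; exact hmb'.le
  have f4 : (1 - (m : ℝ) / δ) * (1 - (m : ℝ) / b) ≤ (D / δ) * (E / b) :=
    mul_le_mul f1 f2 f3 (by positivity)
  have f5 : ((D + E).choose D : ℝ) * ((D : ℝ) / δ * (E / b)) ≤
      (n.choose δ : ℝ) * (((δ : ℝ) / (δ + b)) ^ d * ((b : ℝ) / (δ + b)) ^ e) := by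
    have g : ((D + E).choose D : ℝ) * ((D : ℝ) / δ * (E / b)) =
        ((D + E).choose D : ℝ) * ((D : ℝ) * E) / ((δ : ℝ) * b) := by
      field_simp
    rw [g, div_le_iff₀ (by positivity), hb]
    exact h
  have f6 : ((δ : ℝ) / (2 * n)) ^ d = ((δ : ℝ) / (δ + b)) ^ d / 2 ^ d := by
    rw [← div_pow, hnn]; congr 1; field_simp
  have f7 : (2 : ℝ) ^ δ = 2 ^ D * 2 ^ d := by
    rw [← pow_add]; congr 1; omega
  rw [f6, f7, hnn]
  calc (2 : ℝ) ^ D * ((D + E).choose D : ℝ) * ((1 - (m : ℝ) / δ) * (1 - (m : ℝ) / b))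
      ≤ (2 : ℝ) ^ D * ((D + E).choose D : ℝ) * ((D / δ) * (E / b)) :=
        mul_le_mul_of_nonneg_left f4 (by positivity)
    _ = (2 : ℝ) ^ D * (((D + E).choose D : ℝ) * ((D / δ) * (E / b))) := by ring
    _ ≤ (2 : ℝ) ^ D * ((n.choose δ : ℝ) * (((δ : ℝ) / (δ + b)) ^ d *
        ((b : ℝ) / (δ + b)) ^ e)) := mul_le_mul_of_nonneg_left f5 (by positivity)
    _ = _ := by field_simp

theorem W_sq (ι : Type) [Fintype ι] [DecidableEq ι] (p : ℝ) (a b : ι → ZMod 3)
    (hZ : 0 < (1 - p) ^ 2 + p ^ 2 / 2) :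
    W p a b ^ 2 = ((1 - p) ^ 2 + p ^ 2 / 2) ^ Fintype.card ι *
      W ((p ^ 2 / 2) / ((1 - p) ^ 2 + p ^ 2 / 2)) a b := by
  unfold W
  rw [← Finset.prod_pow, ← Finset.card_univ, ← Finset.prod_const, ← Finset.prod_mul_distrib]
  refine Finset.prod_congr rfl fun i _ => ?_
  split_ifs
  · rw [mul_sub, mul_one, mul_div_cancel₀ _ hZ.ne']
    ring
  · rw [← mul_div_assoc, mul_div_cancel₀ _ hZ.ne']
    ring

theorem tilt : S_tilt := by
  intro ι _ _ A B p hp hp1 hT
  have hZ : 0 < (1 - p) ^ 2 + p ^ 2 / 2 := by positivity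
  set Z := (1 - p) ^ 2 + p ^ 2 / 2 with hZdef
  have hZ3 : Z = (1 + 2 * (1 - 3 * p / 2) ^ 2) / 3 := by rw [hZdef]; ring
  set q := (p ^ 2 / 2) / Z with hq
  have hq0 : 0 < q := by positivity
  have hq1 : q < 1 := by
    rw [hq, div_lt_one hZ, hZdef]
    have : 0 < (1 - p) ^ 2 := by
      have : 0 < 1 - p := by linarith
      positivity
    linarith
  have h1 : T p A B ^ 2 ≤ (A.card : ℝ) * B.card * ∑ a ∈ A, ∑ b ∈ B, W p a b ^ 2 := by
    have e1 : T p A B = ∑ x ∈ A ×ˢ B, W p x.1 x.2 := by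
      unfold T; rw [Finset.sum_product]
    have e2 : ∑ a ∈ A, ∑ b ∈ B, W p a b ^ 2 = ∑ x ∈ A ×ˢ B, W p x.1 x.2 ^ 2 := by
      rw [Finset.sum_product]
    rw [e1, e2]
    have := sq_sum_le_card_mul_sum_sq (s := A ×ˢ B) (f := fun x => W p x.1 x.2)
    rw [Finset.card_product] at this
    push_cast at this
    exact this
  have h2 : ∑ a ∈ A, ∑ b ∈ B, W p a b ^ 2 = Z ^ Fintype.card ι * T q A B := by
    unfold T
    rw [Finset.mul_sum]
    refine Finset.sum_congr rfl fun a _ => ?_
    rw [Finset.mul_sum]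
    refine Finset.sum_congr rfl fun b _ => ?_
    exact W_sq ι p a b hZ
  rw [h2] at h1
  refine h1.trans ?_
  have h3 : Z ^ Fintype.card ι * T q A B ≤ Z ^ Fintype.card ι * 1 :=
    mul_le_mul_of_nonneg_left (hT q hq0 hq1) (by positivity)
  calc (A.card : ℝ) * B.card * (Z ^ Fintype.card ι * T q A B)
      ≤ (A.card : ℝ) * B.card * (Z ^ Fintype.card ι * 1) :=
        mul_le_mul_of_nonneg_left h3 (by positivity)
    _ = _ := by rw [hZ3, div_pow]; ring

end Pool.Agent.Helper47.CW
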