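import Pool.Agent.Helper27.CW.Spec
import Pool.Agent.Helper47.CD.P3

/-! Parts Q9, Q15a of the CW project: calculus with three letters. -/

namespace Pool.Agent.Helper47.CW

open Real Helper27.CD Helper27.CW Pool.Agent.Helper47.CD

theorem small_K (p a b c : ℝ) (hp : 1 / 2 ≤ p) (hp1 : p ≤ 9 / 10) (ha : 0 ≤ a) (hb : 0 ≤ b)
    (hc : 0 ≤ c) (h : a + b + c = 1) (h4 : 1 - a ≤ 1 / 12) (g : ℝ) (hg : 0 ≤ g) (hg1 : g ≤ 1) :
    negMulLog a + negMulLog b + negMulLog c + g * log (1 - p) + (1 - g) * log (p / 2) ≤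
      - ((1 - 3 * p / 2) ^ 2 / 32) := by
  have l2 := Real.log_two_gt_d9
  have l2' := Real.log_two_lt_d9
  have e0 : (0 : ℝ) < log 2 := by linarith
  have h1 := gibbs a 1 ha one_pos
  have h2 := gibbs b (1 / 16) hb (by norm_num)
  have h3 := gibbs c (1 / 16) hc (by norm_num)
  rw [Real.log_one] at h1
  have e2 : log (1 / 16 : ℝ) = - (4 * log 2) := by
    rw [one_div, Real.log_inv, show (16 : ℝ) = 2 ^ 4 by norm_num, Real.log_pow]
    push_cast
    ring
  rw [e2] at h2 h3
  have e3 : log (1 - p) ≤ - log 2 := by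
    rw [← Real.log_inv]
    exact Real.log_le_log (by linarith) (by norm_num; linarith)
  have e4 : log (p / 2) ≤ - log 2 := by
    rw [← Real.log_inv]
    exact Real.log_le_log (by linarith) (by norm_num; linarith)
  have e5 : g * log (1 - p) ≤ g * (- log 2) := mul_le_mul_of_nonneg_left e3 hg
  have e6 : (1 - g) * log (p / 2) ≤ (1 - g) * (- log 2) :=
    mul_le_mul_of_nonneg_left e4 (by linarith)
  have e7 : (b + c) * log 2 ≤ (1 / 12) * log 2 :=
    mul_le_mul_of_nonneg_right (by linarith) e0.le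
  have e8 : (1 - 3 * p / 2) ^ 2 ≤ 1 := by nlinarith
  simp only [negMulLog]
  linarith

theorem phi_relax : S_phi_relax := by
  intro p x y hp hp1 hx hy hxy
  have s : ∀ f : ZMod 3 → ℝ, ∑ i, f i = f 0 + f 1 + f 2 := fun f => Fin.sum_univ_three f
  have hx1 : x 0 + x 1 + x 2 = 1 := by rw [← s]; exact hx.2
  have hy1 : y 0 + y 1 + y 2 = 1 := by rw [← s]; exact hy.2
  obtain ⟨u, -, hu⟩ := Finset.exists_max_image (Finset.univ : Finset (ZMod 3)) y
    Finset.univ_nonempty
  have hu' : ∀ s, y s ≤ y u := fun s => hu s (Finset.mem_univ s)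
  have hgap := phi_gap p x y (by linarith) (by linarith) hx hy u hu'
  by_cases hcase : 1 / 16 ≤ 1 - y u
  · have h1 : (0 : ℝ) ≤ (1 - 3 * p / 2) ^ 2 := sq_nonneg _
    have h2 : (1 - 3 * p / 2) ^ 2 * (1 / 16) ≤ (1 - 3 * p / 2) ^ 2 * (1 - y u) :=
      mul_le_mul_of_nonneg_left hcase h1
    linarith
  · push Not at hcase
    have x0 := hx.1 0
    have x1 := hx.1 1
    have x2 := hx.1 2
    have y0 := hy.1 0
    have y1 := hy.1 1
    have y2 := hy.1 2
    have hxu := hxy u
    have hxl : 1 - x u ≤ 1 / 12 := by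
      by_contra hcon
      push Not at hcon
      have h1 : (15 / 16 : ℝ) * (13 / 12) < y u * (2 - x u) := by
        refine mul_lt_mul (by linarith) (by linarith) (by norm_num) (by linarith)
      linarith
    have hg0 : 0 ≤ x 0 * y 0 + x 1 * y 1 + x 2 * y 2 := by positivity
    have hg1 : x 0 * y 0 + x 1 * y 1 + x 2 * y 2 ≤ 1 := by
      have a0 : x 0 * y 0 ≤ 1 * y 0 := mul_le_mul_of_nonneg_right (by linarith) y0
      have a1 : x 1 * y 1 ≤ 1 * y 1 := mul_le_mul_of_nonneg_right (by linarith) y1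
      have a2 : x 2 * y 2 ≤ 1 * y 2 := mul_le_mul_of_nonneg_right (by linarith) y2
      linarith
    unfold phi
    rw [s, s]
    have hu'' : u = 0 ∨ u = 1 ∨ u = 2 := by
      fin_cases u
      · left; rfl
      · right; left; rfl
      · right; right; rfl
    rcases hu'' with h | h | h
    · subst h
      exact small_K p (x 0) (x 1) (x 2) hp hp1 x0 x1 x2 hx1 hxl _ hg0 hg1
    · subst h
      have := small_K p (x 1) (x 0) (x 2) hp hp1 x1 x0 x2 (by linarith) hxl _ hg0 hg1
      linarith
    · subst h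
      have := small_K p (x 2) (x 0) (x 1) hp hp1 x2 x0 x1 (by linarith) hxl _ hg0 hg1
      linarith

theorem lemKS (p a b c : ℝ) (hp : 0 < p) (hp1 : p < 1) (ha : 0 ≤ a) (hb : 0 ≤ b) (hc : 0 ≤ c)
    (h : a + b + c = 1) :
    - (2 * log (p / 2 + Real.sqrt (2 * p * (1 - p)))) ≤
      ((a * log a + b * log b + c * log c) - a * log (1 - p) - (1 - a) * log (p / 2)) +
      ((a * log a + b * log b + c * log c) - b * log (1 - p) - (1 - b) * log (p / 2)) := by
  have hq : 0 < (1 - p) * (p / 2) := mul_pos (by linarith) (by linarith)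
  set r := Real.sqrt ((1 - p) * (p / 2)) with hr
  have hr0 : 0 < r := Real.sqrt_pos.2 hq
  have hrr : r * r = (1 - p) * (p / 2) := Real.mul_self_sqrt hq.le
  have hr2 : Real.sqrt (2 * p * (1 - p)) = 2 * r := by
    rw [show 2 * p * (1 - p) = (2 * r) ^ 2 by rw [mul_pow, sq r, hrr]; ring]
    exact Real.sqrt_sq (by linarith)
  rw [hr2]
  have hlog : log r + log r = log (1 - p) + log (p / 2) := by
    rw [← Real.log_mul hr0.ne' hr0.ne', hrr, Real.log_mul (by linarith) (by linarith)]
  set S := p / 2 + 2 * r with hS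
  have hS0 : 0 < S := by rw [hS]; linarith
  have h1 := gibbs a (r / S) ha (by positivity)
  have h2 := gibbs b (r / S) hb (by positivity)
  have h3 := gibbs c (p / 2 / S) hc (by positivity)
  rw [Real.log_div hr0.ne' hS0.ne'] at h1 h2
  rw [Real.log_div (by positivity) hS0.ne'] at h3
  have hsum : r / S + r / S + p / 2 / S = 1 := by
    rw [← add_div, ← add_div, div_eq_one_iff_eq hS0.ne', hS]
    ring
  have e1 : (1 - a) * log (p / 2) = b * log (p / 2) + c * log (p / 2) := by
    rw [← add_mul]; congr 1; linarith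
  have e2 : (1 - b) * log (p / 2) = a * log (p / 2) + c * log (p / 2) := by
    rw [← add_mul]; congr 1; linarith
  have e3 : a * log r + a * log r = a * log (1 - p) + a * log (p / 2) := by
    rw [← mul_add, ← mul_add, hlog]
  have e4 : b * log r + b * log r = b * log (1 - p) + b * log (p / 2) := by
    rw [← mul_add, ← mul_add, hlog]
  have e5 : a * log S + b * log S + c * log S = log S := by
    rw [← add_mul, ← add_mul, h, one_mul]
  rw [e1, e2]
  nlinarith

theorem phi_small : S_phi_small := by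
  intro p x y hp hp1 hx hy u hu
  have s : ∀ f : ZMod 3 → ℝ, ∑ i, f i = f 0 + f 1 + f 2 := fun f => Fin.sum_univ_three f
  have hx1 : x 0 + x 1 + x 2 = 1 := by rw [← s]; exact hx.2
  have hy1 : y 0 + y 1 + y 2 = 1 := by rw [← s]; exact hy.2
  have x0 := hx.1 0
  have x1 := hx.1 1
  have x2 := hx.1 2
  have y0 := hy.1 0
  have y1 := hy.1 1
  have y2 := hy.1 2
  have K0 := lemK p (x 0) (x 1) (x 2) hp hp1 x0 x1 x2 hx1
  have K1 := lemK p (x 1) (x 0) (x 2) hp hp1 x1 x0 x2 (by linarith)
  have K2 := lemK p (x 2) (x 0) (x 1) hp hp1 x2 x0 x1 (by linarith)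
  have K01 := lemKS p (x 0) (x 1) (x 2) hp hp1 x0 x1 x2 hx1
  have K02 := lemKS p (x 0) (x 2) (x 1) hp hp1 x0 x2 x1 (by linarith)
  have K12 := lemKS p (x 1) (x 2) (x 0) hp hp1 x1 x2 x0 (by linarith)
  have hu0 := hu 0
  have hu1 := hu 1
  have hu2 := hu 2
  rw [phi_eq p x y hy]
  have hu' : u = 0 ∨ u = 1 ∨ u = 2 := by
    fin_cases u
    · left; rfl
    · right; left; rfl
    · right; right; rfl
  rcases hu' with h | h | h
  · subst h
    have := gap_aux
      ((x 0 * log (x 0) + x 1 * log (x 1) + x 2 * log (x 2)) - x 0 * log (1 - p)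
          - (1 - x 0) * log (p / 2))
      ((x 0 * log (x 0) + x 1 * log (x 1) + x 2 * log (x 2)) - x 1 * log (1 - p)
          - (1 - x 1) * log (p / 2))
      ((x 0 * log (x 0) + x 1 * log (x 1) + x 2 * log (x 2)) - x 2 * log (1 - p)
          - (1 - x 2) * log (p / 2)) (y 0) (y 1) (y 2)
      (- (2 * log (p / 2 + Real.sqrt (2 * p * (1 - p)))))
      (by linarith) (by linarith) (by linarith) y1 y2 hy1 hu1 hu2
      (by linarith) (by linarith)
    linarith
  · subst h
    have := gap_aux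
      ((x 0 * log (x 0) + x 1 * log (x 1) + x 2 * log (x 2)) - x 1 * log (1 - p)
          - (1 - x 1) * log (p / 2))
      ((x 0 * log (x 0) + x 1 * log (x 1) + x 2 * log (x 2)) - x 0 * log (1 - p)
          - (1 - x 0) * log (p / 2))
      ((x 0 * log (x 0) + x 1 * log (x 1) + x 2 * log (x 2)) - x 2 * log (1 - p)
          - (1 - x 2) * log (p / 2)) (y 1) (y 0) (y 2)
      (- (2 * log (p / 2 + Real.sqrt (2 * p * (1 - p)))))
      (by linarith) (by linarith) (by linarith) y0 y2 (by linarith) hu0 hu2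
      (by linarith) (by linarith)
    linarith
  · subst h
    have := gap_aux
      ((x 0 * log (x 0) + x 1 * log (x 1) + x 2 * log (x 2)) - x 2 * log (1 - p)
          - (1 - x 2) * log (p / 2))
      ((x 0 * log (x 0) + x 1 * log (x 1) + x 2 * log (x 2)) - x 0 * log (1 - p)
          - (1 - x 0) * log (p / 2))
      ((x 0 * log (x 0) + x 1 * log (x 1) + x 2 * log (x 2)) - x 1 * log (1 - p)
          - (1 - x 1) * log (p / 2)) (y 2) (y 0) (y 1)
      (- (2 * log (p / 2 + Real.sqrt (2 * p * (1 - p)))))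
      (by linarith) (by linarith) (by linarith) y0 y1 (by linarith) hu0 hu1
      (by linarith) (by linarith)
    linarith

end Pool.Agent.Helper47.CW
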